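import Mathlib

/-!
# A hereditary subshift with long runs of zeros: combinatorial part
-/

set_option autoImplicit false

namespace Pool.Agent.V8H62.ASP

open Filter Topology Finset

/-- A sequence of zeros and ones is admissible if for every `j ≥ 1`, between any two positions with
value one at distance at least `16 ^ j + j` there are `j` consecutive zeros. -/
def Adm (x : ℕ → Bool) : Prop :=
  ∀ j : ℕ, 1 ≤ j → ∀ a b : ℕ, x a = true → x b = true → a + (16 ^ j + j) ≤ b →
    ∃ p : ℕ, a < p ∧ p + j ≤ b ∧ ∀ i, p ≤ i → i < p + j → x i = false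

/-- zero out the positions in `Z` -/
noncomputable def cut (y : ℕ → Bool) (Z : Set ℕ) : ℕ → Bool :=
  open Classical in fun i => if i ∈ Z then false else y i

lemma cut_true {y : ℕ → Bool} {Z : Set ℕ} {i : ℕ} : cut y Z i = true ↔ i ∉ Z ∧ y i = true := by
  unfold cut; split <;> simp_all

lemma cut_false_of_mem {y : ℕ → Bool} {Z : Set ℕ} {i : ℕ} (h : i ∈ Z) : cut y Z i = false := by
  unfold cut; simp [h]

lemma cut_false_of_false {y : ℕ → Bool} {Z : Set ℕ} {i : ℕ} (h : y i = false) :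
    cut y Z i = false := by
  unfold cut; simp [h]

lemma cut_eq {y : ℕ → Bool} {Z : Set ℕ} {i : ℕ} (h : i ∉ Z) : cut y Z i = y i := by
  unfold cut; simp [h]

/-- It suffices to check windows whose length is close to `16 ^ j + j`. -/
lemma adm_of_short {z : ℕ → Bool}
    (h : ∀ j : ℕ, 1 ≤ j → ∀ a b : ℕ, z a = true → z b = true → a + (16 ^ j + j) ≤ b →
      b ≤ a + (16 ^ j + j) + j →
      ∃ p : ℕ, a < p ∧ p + j ≤ b ∧ ∀ i, p ≤ i → i < p + j → z i = false) : Adm z := by
  intro j hj a b ha hb hab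
  have hex : ∃ c, a + (16 ^ j + j) ≤ c ∧ z c = true := ⟨b, hab, hb⟩
  classical
  set c := Nat.find hex with hc
  obtain ⟨hc1, hc2⟩ : a + (16 ^ j + j) ≤ c ∧ z c = true := Nat.find_spec hex
  have hcb : c ≤ b := Nat.find_min' hex ⟨hab, hb⟩
  by_cases hcl : c ≤ a + (16 ^ j + j) + j
  · obtain ⟨p, hp1, hp2, hp3⟩ := h j hj a c ha hc2 hc1 hcl
    exact ⟨p, hp1, by omega, hp3⟩
  · push Not at hcl
    have h16 : 0 < 16 ^ j := by positivity
    refine ⟨a + (16 ^ j + j), by omega, by omega, fun i hi1 hi2 => ?_⟩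
    by_contra hne
    have hzi : z i = true := by simpa using hne
    have := Nat.find_min' hex ⟨hi1, hzi⟩
    omega

/-- shift of an admissible sequence is admissible -/
lemma Adm.shift {x : ℕ → Bool} (h : Adm x) : Adm (fun n => x (n + 1)) := by
  intro j hj a b ha hb hab
  obtain ⟨p, hp1, hp2, hp3⟩ := h j hj (a + 1) (b + 1) ha hb (by omega)
  refine ⟨p - 1, by omega, by omega, fun i hi1 hi2 => hp3 (i + 1) (by omega) (by omega)⟩

/-- a breakpoint of order `m`: `x (i+1)` differs from the shift of `x i` in one of the first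
`m + 1` coordinates. -/
def Bad (x : ℕ → ℕ → Bool) (m : ℕ) : Set ℕ := {i | ∃ t ≤ m, x i (t + 1) ≠ x (i + 1) t}

lemma Bad_mono {x : ℕ → ℕ → Bool} {m m' : ℕ} (h : m ≤ m') : Bad x m ⊆ Bad x m' := by
  rintro i ⟨t, ht, h2⟩
  exact ⟨t, ht.trans h, h2⟩

lemma agree {x : ℕ → ℕ → Bool} {m : ℕ} (l : ℕ) : ∀ i, l ≤ m + 1 →
    (∀ s < l, i + s ∉ Bad x m) → x i l = x (i + l) 0 := by
  induction l with
  | zero => intro i _ _; simp
  | succ l ih =>
    intro i hl hs
    have h1 : x i (l + 1) = x (i + 1) l := by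
      by_contra hne
      exact hs 0 (by omega) ⟨l, by omega, by simpa using hne⟩
    rw [h1, ih (i + 1) (by omega) (fun s hs' => by
      have := hs (s + 1) (by omega)
      rwa [show i + (s + 1) = i + 1 + s by ring] at this)]
    congr 1; ring

/-- number of elements of `S` below `n` -/
noncomputable def cnt (S : Set ℕ) (n : ℕ) : ℕ :=
  open Classical in ((range n).filter (fun i => i ∈ S)).card

lemma cnt_mono {S T : Set ℕ} (h : S ⊆ T) (n : ℕ) : cnt S n ≤ cnt T n := by
  classical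
  unfold cnt
  apply card_le_card
  intro i hi
  simp only [mem_filter, mem_range] at hi ⊢
  exact ⟨hi.1, h hi.2⟩

lemma cnt_mono_right {S : Set ℕ} {n n' : ℕ} (h : n ≤ n') : cnt S n ≤ cnt S n' := by
  classical
  unfold cnt
  apply card_le_card
  intro i hi
  simp only [mem_filter, mem_range] at hi ⊢
  exact ⟨by omega, hi.2⟩

lemma cnt_le (S : Set ℕ) (n : ℕ) : cnt S n ≤ n := by
  classical
  unfold cnt
  exact (card_filter_le _ _).trans (by simp)

lemma cnt_union (S T : Set ℕ) (n : ℕ) : cnt (S ∪ T) n ≤ cnt S n + cnt T n := by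
  classical
  unfold cnt
  rw [← card_union_add_card_inter]
  refine le_trans (card_le_card ?_) (Nat.le_add_right _ _)
  intro i hi
  simp only [mem_filter, mem_range, mem_union, Set.mem_union] at hi ⊢
  tauto

/-- the `L`-neighbourhood of `S` -/
def nbhd (S : Set ℕ) (L : ℕ) : Set ℕ := {t | ∃ i ∈ S, t ≤ i + L ∧ i ≤ t + L}

lemma cnt_nbhd (S : Set ℕ) (L n : ℕ) : cnt (nbhd S L) n ≤ (2 * L + 1) * cnt S (n + L) := by
  classical
  unfold cnt
  have hsub : (range n).filter (fun i => i ∈ nbhd S L) ⊆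
      ((range (n + L)).filter (fun i => i ∈ S)).biUnion
        (fun i => (Icc (i - L) (i + L))) := by
    intro t ht
    rw [mem_filter, mem_range] at ht
    obtain ⟨ht1, i, hi, h1, h2⟩ := ht
    simp only [mem_biUnion, mem_filter, mem_range, mem_Icc]
    exact ⟨i, ⟨by omega, hi⟩, by omega, by omega⟩
  refine (card_le_card hsub).trans ?_
  refine card_biUnion_le.trans ?_
  calc ∑ i ∈ (range (n + L)).filter (fun i => i ∈ S), (Icc (i - L) (i + L)).card
      ≤ ∑ i ∈ (range (n + L)).filter (fun i => i ∈ S), (2 * L + 1) := by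
        apply sum_le_sum
        intro i _
        rw [Nat.card_Icc]; omega
    _ = _ := by rw [sum_const, smul_eq_mul]; ring

/-- the set of positions of the scheduled runs of zeros of orders `j ≥ 1` with starting points
below `B j` -/
def sched (B : ℕ → ℕ) : Set ℕ :=
  {t | ∃ j, 1 ≤ j ∧ ∃ q, 16 ^ j ∣ q ∧ 1 ≤ q ∧ q < B j ∧ q ≤ t ∧ t < q + j}

/-- a multiple of `P` in `(a, a + P]` -/
lemma exists_mult (P a : ℕ) (hP : 0 < P) : ∃ q, P ∣ q ∧ a < q ∧ q ≤ a + P := by
  refine ⟨P * (a / P + 1), Dvd.intro _ rfl, ?_, ?_⟩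
  · have := Nat.lt_mul_div_succ a hP
    exact this
  · have h1 := Nat.div_mul_le_self a P
    nlinarith

/-- counting the scheduled positions -/
lemma cnt_sched (B : ℕ → ℕ) (n : ℕ) :
    (cnt (sched B) n : ℝ) ≤ ∑ j ∈ Ico 1 n, (j : ℝ) * (min (n : ℝ) (B j)) / 16 ^ j := by
  classical
  have hsub : (range n).filter (fun i => i ∈ sched B) ⊆
      (Ico 1 n).biUnion (fun j => ((Ico 1 (min (n / 16 ^ j + 1) (B j / 16 ^ j + 1))).biUnion
        (fun s => Ico (16 ^ j * s) (16 ^ j * s + j)))) := by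
    intro t ht
    rw [mem_filter, mem_range] at ht
    obtain ⟨ht1, j, hj, q, ⟨s, rfl⟩, hq1, hqB, hqt, htq⟩ := ht
    simp only [mem_biUnion, mem_Ico]
    have hP : 0 < 16 ^ j := by positivity
    have hs : 1 ≤ s := by
      rcases Nat.eq_zero_or_pos s with h | h
      · subst h; simp at hq1
      · exact h
    have hjn : j < n := by
      have h1 : j < 16 ^ j := Nat.lt_pow_self (by norm_num)
      have h2 : 16 ^ j ≤ 16 ^ j * s := Nat.le_mul_of_pos_right _ hs
      omega
    refine ⟨j, ⟨hj, hjn⟩, s, ⟨hs, ?_⟩, hqt, htq⟩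
    rw [lt_min_iff]
    constructor
    · rw [Nat.lt_succ_iff, Nat.le_div_iff_mul_le hP, mul_comm]
      omega
    · rw [Nat.lt_succ_iff, Nat.le_div_iff_mul_le hP, mul_comm]
      omega
  have h1 : cnt (sched B) n ≤ ∑ j ∈ Ico 1 n, (min (n / 16 ^ j) (B j / 16 ^ j)) * j := by
    unfold cnt
    refine (card_le_card hsub).trans (card_biUnion_le.trans ?_)
    apply sum_le_sum
    intro j hj
    refine card_biUnion_le.trans ?_
    have : ∀ s ∈ Ico 1 (min (n / 16 ^ j + 1) (B j / 16 ^ j + 1)),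
        (Ico (16 ^ j * s) (16 ^ j * s + j)).card ≤ j := by
      intro s _
      rw [Nat.card_Ico]; omega
    refine (sum_le_sum this).trans ?_
    rw [sum_const, smul_eq_mul, Nat.card_Ico]
    apply Nat.mul_le_mul_right
    generalize n / 16 ^ j = u
    generalize B j / 16 ^ j = v
    omega
  calc (cnt (sched B) n : ℝ) ≤ ((∑ j ∈ Ico 1 n, (min (n / 16 ^ j) (B j / 16 ^ j)) * j : ℕ) : ℝ) := by
        exact_mod_cast h1
    _ = ∑ j ∈ Ico 1 n, ((min (n / 16 ^ j) (B j / 16 ^ j) : ℕ) : ℝ) * j := by push_cast; rfl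
    _ ≤ _ := by
        apply sum_le_sum
        intro j _
        have h3 : ((min (n / 16 ^ j) (B j / 16 ^ j) : ℕ) : ℝ) ≤ (min (n : ℝ) (B j)) / 16 ^ j := by
          rw [le_div_iff₀ (by positivity)]
          rw [le_min_iff]
          have h4 : (n / 16 ^ j) * 16 ^ j ≤ n := Nat.div_mul_le_self _ _
          have h5 : (B j / 16 ^ j) * 16 ^ j ≤ B j := Nat.div_mul_le_self _ _
          constructor
          · have : (min (n / 16 ^ j) (B j / 16 ^ j)) * 16 ^ j ≤ n :=
              (Nat.mul_le_mul_right _ (min_le_left _ _)).trans h4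
            exact_mod_cast this
          · have : (min (n / 16 ^ j) (B j / 16 ^ j)) * 16 ^ j ≤ B j :=
              (Nat.mul_le_mul_right _ (min_le_right _ _)).trans h5
            exact_mod_cast this
        calc ((min (n / 16 ^ j) (B j / 16 ^ j) : ℕ) : ℝ) * j
            ≤ ((min (n : ℝ) (B j)) / 16 ^ j) * j := by
              apply mul_le_mul_of_nonneg_right h3 (Nat.cast_nonneg j)
          _ = _ := by ring

/-- `j / 16 ^ j ≤ 1 / 8 ^ j` -/
lemma j_div (j : ℕ) : (j : ℝ) / 16 ^ j ≤ (1 / 8) ^ j := by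
  have h1 : (j : ℝ) ≤ 2 ^ j := by
    exact_mod_cast (Nat.lt_two_pow_self (n := j)).le
  rw [div_le_iff₀ (by positivity)]
  calc (j : ℝ) ≤ 2 ^ j := h1
    _ = (1 / 8) ^ j * 16 ^ j := by rw [← mul_pow]; norm_num

lemma tail_sum (J n : ℕ) : ∑ j ∈ Ico J n, (1 / 8 : ℝ) ^ j ≤ 2 * (1 / 8) ^ J := by
  induction n with
  | zero => simp
  | succ n ih =>
    rcases Nat.lt_or_ge n J with h | h
    · rw [Ico_eq_empty (by omega)]; simp
    · have hkey : ∀ n, J ≤ n → ∑ j ∈ Ico J (n + 1), (1 / 8 : ℝ) ^ j ≤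
          2 * (1 / 8) ^ J - 2 * (1 / 8) ^ (n + 1) := by
        intro n hn
        induction n, hn using Nat.le_induction with
        | base =>
          rw [sum_Ico_succ_top le_rfl, Ico_self, sum_empty, zero_add, pow_succ]
          have : (0 : ℝ) < (1 / 8) ^ J := by positivity
          linarith
        | succ n hn ih2 =>
          rw [sum_Ico_succ_top (by omega)]
          have : (0 : ℝ) < (1 / 8) ^ (n + 1) := by positivity
          have e : (1 / 8 : ℝ) ^ (n + 1 + 1) = (1 / 8) ^ (n + 1) * (1 / 8) := pow_succ _ _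
          rw [e]
          linarith
      have := hkey n h
      have h2 : (0 : ℝ) < (1 / 8) ^ (n + 1) := by positivity
      linarith

end Pool.Agent.V8H62.ASP
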