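import Mathlib

/-!
# Average shadowing properties, minimal points, invariant measures of full support
-/

set_option autoImplicit false

namespace Pool.Agent.V8H62.ASP

open Filter Topology Finset MeasureTheory

/-- `(x_i)` is a `δ`-average-pseudo-orbit of `f`: there is `N` such that for all `n ≥ N` and all
`k`, `(1/n) ∑_{i<n} d(f(x_{i+k}), x_{i+k+1}) < δ`. -/
def IsAveragePseudoOrbit {X : Type} [MetricSpace X] (f : X → X) (δ : ℝ) (x : ℕ → X) : Prop :=
  ∃ N : ℕ, ∀ n ≥ N, ∀ k : ℕ,
    (∑ i ∈ range n, dist (f (x (i + k))) (x (i + k + 1))) / n < δ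

/-- `(x_i)` is `ε`-shadowed in average by `z`: `limsup (1/n) ∑_{i<n} d(f^i(z), x_i) < ε`. -/
def ShadowedInAverage {X : Type} [MetricSpace X] (f : X → X) (ε : ℝ) (x : ℕ → X) (z : X) :
    Prop :=
  limsup (fun n : ℕ => (∑ i ∈ range n, dist (f^[i] z) (x i)) / n) atTop < ε

/-- The average shadowing property: for every `ε > 0` there is `δ > 0` such that every
`δ`-average-pseudo-orbit is `ε`-shadowed in average by some point. -/
def AverageShadowing {X : Type} [MetricSpace X] (f : X → X) : Prop :=
  ∀ ε : ℝ, 0 < ε → ∃ δ : ℝ, 0 < δ ∧ ∀ x : ℕ → X, IsAveragePseudoOrbit f δ x →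
    ∃ z : X, ShadowedInAverage f ε x z

/-- The asymptotic average shadowing property: every sequence with
`(1/n) ∑_{i<n} d(f(x_i), x_{i+1}) → 0` is shadowed by a point `z` with
`(1/n) ∑_{i<n} d(f^i(z), x_i) → 0`. -/
def AsymptoticAverageShadowing {X : Type} [MetricSpace X] (f : X → X) : Prop :=
  ∀ x : ℕ → X,
    Tendsto (fun n : ℕ => (∑ i ∈ range n, dist (f (x i)) (x (i + 1))) / n) atTop (𝓝 0) →
    ∃ z : X, Tendsto (fun n : ℕ => (∑ i ∈ range n, dist (f^[i] z) (x i)) / n) atTop (𝓝 0)

/-- `K` is a minimal set of `f`: a nonempty closed invariant set (`f K ⊆ K`) without a proper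
nonempty closed invariant subset. -/
def IsMinimalSet {X : Type} [TopologicalSpace X] (f : X → X) (K : Set X) : Prop :=
  K.Nonempty ∧ IsClosed K ∧ Set.MapsTo f K K ∧
    ∀ K' : Set X, K' ⊆ K → K'.Nonempty → IsClosed K' → Set.MapsTo f K' K' → K' = K

/-- `x` is a minimal point of `f`: the closure of its forward orbit is a minimal set. -/
def IsMinimalPoint {X : Type} [TopologicalSpace X] (f : X → X) (x : X) : Prop :=
  IsMinimalSet f (closure (Set.range fun n : ℕ => f^[n] x))

/-- `f` has an invariant Borel probability measure of full support (all nonempty open sets have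
positive measure). -/
def HasFullSupportMeasure {X : Type} [TopologicalSpace X] (f : X → X) : Prop :=
  ∃ μ : @Measure X (borel X), @IsProbabilityMeasure X (borel X) μ ∧
    @MeasurePreserving X X (borel X) (borel X) f μ μ ∧
    ∀ U : Set X, IsOpen U → U.Nonempty → 0 < μ U

end Pool.Agent.V8H62.ASP
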