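import Pool.Agent.V8H62.ASP.Sys

/-!
# Full support and minimal points
-/

set_option autoImplicit false

namespace Pool.Agent.V8H62.ASP

open Filter Topology Finset MeasureTheory

attribute [local instance] PiNat.metricSpace

/-! ### Minimal points -/

/-- the zero sequence -/
def o : Sp := ⟨fun _ => false, by
  intro j _ a b ha; simp at ha⟩

/-- the sequence `1 0 0 0 ...` -/
def e1 : Sp := ⟨fun n => decide (n = 0), by
  intro j _ a b ha hb hab
  have h16 : 0 < 16 ^ j := by positivity
  simp only [decide_eq_true_eq] at ha hb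
  omega⟩

lemma o_ne : e1 ≠ o := by
  intro h
  have := congrArg (fun x : Sp => x.1 0) h
  simp [e1, o] at this

lemma exists_run (x : Sp) (l : ℕ) : ∃ i, ∀ t < l, x.1 (i + t) = false := by
  by_contra hcon
  push Not at hcon
  have hl : 1 ≤ l := by
    rcases Nat.eq_zero_or_pos l with h | h
    · subst h
      obtain ⟨t, ht, _⟩ := hcon 0
      omega
    · exact h
  obtain ⟨a, _, ha⟩ := hcon 0
  rw [zero_add] at ha
  obtain ⟨t, ht, hb⟩ := hcon (a + (16 ^ l + l))
  obtain ⟨p, hp1, hp2, hp3⟩ := x.2 l hl a (a + (16 ^ l + l) + t) (by simpa using ha)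
    (by simpa using hb) (by omega)
  obtain ⟨s, hs, hs2⟩ := hcon p
  exact hs2 (hp3 (p + s) (by omega) (by omega))

lemma o_mem_closure (x : Sp) : o ∈ closure (Set.range fun n : ℕ => sh^[n] x) := by
  rw [Metric.mem_closure_range_iff]
  intro ε hε
  obtain ⟨l, hl⟩ : ∃ l : ℕ, (1 / 2 : ℝ) ^ l < ε := exists_pow_lt_of_lt_one hε (by norm_num)
  obtain ⟨i, hi⟩ := exists_run x l
  refine ⟨i, lt_of_le_of_lt (dist_le_of_agree (l := l) fun t ht => ?_) hl⟩
  rw [sh_iter, hi t ht]; rfl

lemma sh_o : sh o = o := rfl

lemma isMinimalPoint_iff (x : Sp) : IsMinimalPoint sh x ↔ x = o := by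
  constructor
  · rintro ⟨_, _, _, h4⟩
    have h5 := h4 {o} (by
      rw [Set.singleton_subset_iff]; exact o_mem_closure x) ⟨o, rfl⟩ isClosed_singleton (by
      intro y hy
      rw [Set.mem_singleton_iff] at hy ⊢
      rw [hy, sh_o])
    have hx : x ∈ closure (Set.range fun n : ℕ => sh^[n] x) := subset_closure ⟨0, rfl⟩
    rw [← h5] at hx
    exact hx
  · rintro rfl
    have h1 : (Set.range fun n : ℕ => sh^[n] o) = {o} := by
      ext y
      simp only [Set.mem_range, Set.mem_singleton_iff]
      constructor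
      · rintro ⟨n, rfl⟩
        exact Function.iterate_fixed sh_o n
      · rintro rfl
        exact ⟨0, rfl⟩
    unfold IsMinimalPoint
    rw [h1, isClosed_singleton.closure_eq]
    refine ⟨⟨o, rfl⟩, isClosed_singleton, ?_, ?_⟩
    · intro y hy
      rw [Set.mem_singleton_iff] at hy ⊢
      rw [hy, sh_o]
    · intro K' hK' hne _ _
      exact hne.subset_singleton_iff.1 hK'

lemma minimal_eq : {x : Sp | IsMinimalPoint sh x} = {o} := by
  ext x
  exact isMinimalPoint_iff x

lemma not_dense_minimal : ¬ Dense {x : Sp | IsMinimalPoint sh x} := by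
  rw [minimal_eq]
  intro h
  have h1 := h.closure_eq
  rw [isClosed_singleton.closure_eq] at h1
  have h2 : e1 ∈ ({o} : Set Sp) := by rw [h1]; trivial
  exact o_ne h2

/-! ### A point visiting a given cylinder with positive frequency -/

/-- blocks meeting the scheduled runs -/
def badBlocks (Q j0 : ℕ) : Set ℕ := {i | ∃ t ∈ schedInf j0, t / Q = i / Q}

/-- repetition of the word `x 0, ..., x (l-1)` with period `Q` -/
def per (x : ℕ → Bool) (Q l : ℕ) : ℕ → Bool := fun i => if i % Q < l then x (i % Q) else false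

lemma adm_rep {x : ℕ → Bool} (hx : Adm x) (Q l j0 : ℕ) (hQ : l + j0 < Q) :
    Adm (cut (per x Q l) (badBlocks Q j0)) := by
  intro j hj a b ha hb hab
  have h16 : 0 < 16 ^ j := by positivity
  rw [cut_true] at ha hb
  by_cases hjj : j ≤ j0
  · have ha2 : a % Q < l ∧ x (a % Q) = true := by
      have := ha.2; unfold per at this; split at this
      · rename_i h; exact ⟨h, this⟩
      · simp at this
    have hb2 : b % Q < l ∧ x (b % Q) = true := by
      have := hb.2; unfold per at this; split at this
      · rename_i h; exact ⟨h, this⟩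
      · simp at this
    have ea := Nat.div_add_mod a Q
    have eb := Nat.div_add_mod b Q
    by_cases hblock : a / Q = b / Q
    · rw [← hblock] at eb
      obtain ⟨p, hp1, hp2, hp3⟩ := hx j hj (a % Q) (b % Q) ha2.2 hb2.2 (by omega)
      refine ⟨Q * (a / Q) + p, by omega, by omega, fun i hi1 hi2 => ?_⟩
      apply cut_false_of_false
      unfold per
      have hr : i % Q = i - Q * (a / Q) := by
        have hlt : i - Q * (a / Q) < Q := by omega
        have : i = (i - Q * (a / Q)) + Q * (a / Q) := by omega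
        conv_lhs => rw [this]
        rw [Nat.add_mul_mod_self_left, Nat.mod_eq_of_lt hlt]
      rw [hr]
      split
      · exact hp3 _ (by omega) (by omega)
      · rfl
    · have hlt : a / Q < b / Q :=
        lt_of_le_of_ne (Nat.div_le_div_right (by omega)) hblock
      have hmul : Q * (a / Q + 1) ≤ Q * (b / Q) := Nat.mul_le_mul_left Q hlt
      rw [Nat.mul_add, Nat.mul_one] at hmul
      refine ⟨Q * (a / Q) + l, by omega, by omega, fun i hi1 hi2 => ?_⟩
      apply cut_false_of_false
      unfold per
      have hr : i % Q = i - Q * (a / Q) := by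
        have hlt : i - Q * (a / Q) < Q := by omega
        have : i = (i - Q * (a / Q)) + Q * (a / Q) := by omega
        conv_lhs => rw [this]
        rw [Nat.add_mul_mod_self_left, Nat.mod_eq_of_lt hlt]
      rw [hr, if_neg (by omega)]
  · obtain ⟨q, hq1, hq2, hq3⟩ := exists_mult (16 ^ j) a (by positivity)
    exact ⟨q, hq2, by omega, fun i hi1 hi2 => cut_false_of_mem
      ⟨i, ⟨j, by omega, q, hq1, by omega, hi1, hi2⟩, rfl⟩⟩

/-- the cylinder of length `l` around `x` -/
def cyl (x : Sp) (l : ℕ) : Set Sp := {y | ∀ t < l, y.1 t = x.1 t}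

lemma isOpen_cyl (x : Sp) (l : ℕ) : IsOpen (cyl x l) := by
  have : cyl x l = ⋂ t ∈ Finset.range l, {y : Sp | y.1 t = x.1 t} := by
    ext y; simp [cyl]
  rw [this]
  refine isOpen_biInter_finset fun t _ => ?_
  have h : Continuous fun y : Sp => y.1 t := (continuous_apply t).comp continuous_val
  exact (isOpen_discrete ({x.1 t} : Set Bool)).preimage h

lemma isClosed_cyl (x : Sp) (l : ℕ) : IsClosed (cyl x l) := by
  have : cyl x l = ⋂ t ∈ Finset.range l, {y : Sp | y.1 t = x.1 t} := by
    ext y; simp [cyl]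
  rw [this]
  refine isClosed_biInter fun t _ => ?_
  have h : Continuous fun y : Sp => y.1 t := (continuous_apply t).comp continuous_val
  exact (isClosed_discrete ({x.1 t} : Set Bool)).preimage h

noncomputable local instance : MeasurableSpace Sp := borel Sp
local instance : BorelSpace Sp := ⟨rfl⟩

lemma exists_measure (x : Sp) (l : ℕ) : ∃ P : Measure Sp, IsProbabilityMeasure P ∧
    MeasurePreserving sh P P ∧ 0 < P (cyl x l) := by
  classical
  -- the period
  obtain ⟨j0, hj0⟩ : ∃ j0 : ℕ, l + j0 < 4 ^ j0 := by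
    refine ⟨l + 1, ?_⟩
    have h1 : l + 1 < 2 ^ (l + 1) := Nat.lt_two_pow_self
    have h2 : (4 : ℕ) ^ (l + 1) = 2 ^ (l + 1) * 2 ^ (l + 1) := by
      rw [← mul_pow]; norm_num
    have h3 : 2 ≤ 2 ^ (l + 1) := by
      calc 2 = 2 ^ 1 := by norm_num
        _ ≤ 2 ^ (l + 1) := Nat.pow_le_pow_right (by norm_num) (by omega)
    nlinarith
  set Q : ℕ := 4 ^ j0 with hQdef
  have hQpos : 0 < Q := by positivity
  set v : Sp := ⟨cut (per x.1 Q l) (badBlocks Q j0), adm_rep x.2 Q l j0 hj0⟩ with hv
  -- good blocks
  have hgood : ∀ t, t * Q ∉ badBlocks Q j0 → sh^[t * Q] v ∈ cyl x l := by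
    intro t ht s hs
    rw [sh_iter]
    show cut (per x.1 Q l) (badBlocks Q j0) (t * Q + s) = x.1 s
    have hsQ : s < Q := by omega
    have hdiv : (t * Q + s) / Q = t := by
      rw [mul_comm, Nat.mul_add_div hQpos, Nat.div_eq_of_lt hsQ, add_zero]
    have hmod : (t * Q + s) % Q = s := by
      rw [mul_comm, Nat.mul_add_mod, Nat.mod_eq_of_lt hsQ]
    rw [cut_eq]
    · unfold per; rw [hmod, if_pos hs]
    · rintro ⟨r, hr1, hr2⟩
      apply ht
      refine ⟨r, hr1, ?_⟩
      rw [hr2, hdiv, Nat.mul_div_cancel _ hQpos]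
  -- count
  have hcount : ∀ T : ℕ, (((range (T * Q)).filter (fun i => sh^[0 + i] v ∈ (cyl x l)ᶜ)).card : ℝ) ≤
      (T * Q : ℕ) * (1 - 1 / (2 * Q)) := by
    intro T
    have h1 : ((range T).filter (fun t => t * Q ∈ badBlocks Q j0)).card ≤
        cnt (schedInf j0) (T * Q) := by
      unfold cnt
      have hch : ∀ t : ℕ, t * Q ∈ badBlocks Q j0 → ∃ r ∈ schedInf j0, r / Q = t := by
        rintro t ⟨r, hr1, hr2⟩
        exact ⟨r, hr1, by rw [hr2, Nat.mul_div_cancel _ hQpos]⟩
      refine card_le_card_of_injOn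
        (fun t => if h : t * Q ∈ badBlocks Q j0 then (hch t h).choose else 0) ?_ ?_
      · intro t ht
        simp only [coe_filter, Set.mem_ofPred_eq, mem_range] at ht ⊢
        rw [dif_pos ht.2]
        have h2 := (hch t ht.2).choose_spec
        refine ⟨?_, h2.1⟩
        rw [← Nat.div_lt_iff_lt_mul hQpos, h2.2]
        exact ht.1
      · intro t ht t' ht' heq
        simp only [coe_filter, Set.mem_ofPred_eq] at ht ht'
        simp only at heq
        rw [dif_pos ht.2, dif_pos ht'.2] at heq
        rw [← (hch t ht.2).choose_spec.2, ← (hch t' ht'.2).choose_spec.2, heq]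
    have h2 := cnt_schedInf j0 (T * Q)
    have h3 : (2 * (1 / 8 : ℝ) ^ (j0 + 1) * (T * Q : ℕ)) ≤ T / 4 := by
      push_cast
      rw [hQdef]
      push_cast
      have : (2 * (1 / 8 : ℝ) ^ (j0 + 1) * (T * 4 ^ j0)) = (T / 4) * (1 / 2) ^ j0 := by
        have h0 : (1 / 8 : ℝ) ^ j0 * 4 ^ j0 = (1 / 2) ^ j0 := by rw [← mul_pow]; norm_num
        rw [← h0, pow_succ]; ring
      rw [this]
      have h4 : (1 / 2 : ℝ) ^ j0 ≤ 1 := pow_le_one₀ (by norm_num) (by norm_num)
      have h5 : (0 : ℝ) ≤ T / 4 := by positivity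
      exact mul_le_of_le_one_right h5 h4
    have h4 : ((range (T * Q)).filter (fun i => sh^[0 + i] v ∈ (cyl x l)ᶜ)).card +
        ((range T).filter (fun t => t * Q ∉ badBlocks Q j0)).card ≤ T * Q := by
      have hinj : ((range T).filter (fun t => t * Q ∉ badBlocks Q j0)).card =
          (((range T).filter (fun t => t * Q ∉ badBlocks Q j0)).image (fun t => t * Q)).card := by
        rw [card_image_of_injective]
        intro t t' h
        exact Nat.eq_of_mul_eq_mul_right hQpos h
      rw [hinj, ← card_union_of_disjoint]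
      · calc _ ≤ (range (T * Q)).card := by
              apply card_le_card
              intro i hi
              rw [mem_union] at hi
              rcases hi with hi | hi
              · exact (mem_filter.1 hi).1
              · rw [mem_image] at hi
                obtain ⟨t, ht, rfl⟩ := hi
                rw [mem_filter, mem_range] at ht
                rw [mem_range]
                exact Nat.mul_lt_mul_of_pos_right ht.1 hQpos
          _ = T * Q := card_range _
      · rw [disjoint_left]
        intro i hi hi2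
        rw [mem_image] at hi2
        obtain ⟨t, ht, rfl⟩ := hi2
        rw [mem_filter] at ht hi
        apply hi.2
        rw [zero_add]
        exact hgood t ht.2
    have h5 : ((range T).filter (fun t => t * Q ∈ badBlocks Q j0)).card +
        ((range T).filter (fun t => t * Q ∉ badBlocks Q j0)).card = T := by
      rw [card_filter_add_card_filter_not]; simp
    have h4r : (((range (T * Q)).filter (fun i => sh^[0 + i] v ∈ (cyl x l)ᶜ)).card : ℝ) +
        ((range T).filter (fun t => t * Q ∉ badBlocks Q j0)).card ≤ (T * Q : ℕ) := by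
      exact_mod_cast h4
    have h5r : (((range T).filter (fun t => t * Q ∈ badBlocks Q j0)).card : ℝ) +
        ((range T).filter (fun t => t * Q ∉ badBlocks Q j0)).card = T := by
      exact_mod_cast h5
    have h1r : (((range T).filter (fun t => t * Q ∈ badBlocks Q j0)).card : ℝ) ≤
        cnt (schedInf j0) (T * Q) := by exact_mod_cast h1
    have h6 : ((T * Q : ℕ) : ℝ) * (1 - 1 / (2 * Q)) = (T * Q : ℕ) - T / 2 := by
      have : (Q : ℝ) ≠ 0 := by positivity
      push_cast
      field_simp
    rw [h6]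
    have hT : (0 : ℝ) ≤ T := Nat.cast_nonneg T
    linarith
  obtain ⟨P, hP1, hP2, hP3⟩ := W765.KB.kb continuous_sh v (fun _ => 0) (fun L => (L + 1) * Q)
    (by
      refine tendsto_atTop_mono (f := fun L : ℕ => L) (fun L => ?_) tendsto_id
      nlinarith)
    (fun L => by positivity)
  refine ⟨P, hP1, hP2, ?_⟩
  have h1 := hP3 (cyl x l)ᶜ (isClosed_cyl x l).isOpen_compl
    (ENNReal.ofReal (1 - 1 / (2 * Q))) (fun L => by
      rw [W765.KB.emp_apply (isClosed_cyl x l).isOpen_compl.measurableSet]
      have h2 := hcount (L + 1)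
      have hn : (0 : ℝ) < ((L + 1) * Q : ℕ) := by positivity
      have h3 : (((range ((L + 1) * Q)).filter (fun i => sh^[0 + i] v ∈ (cyl x l)ᶜ)).card : ENNReal)
          ≤ ENNReal.ofReal (((L + 1) * Q : ℕ) * (1 - 1 / (2 * Q))) := by
        rw [← ENNReal.ofReal_natCast]
        exact ENNReal.ofReal_le_ofReal h2
      calc _ ≤ (((L + 1) * Q : ℕ) : ENNReal)⁻¹ *
            ENNReal.ofReal (((L + 1) * Q : ℕ) * (1 - 1 / (2 * Q))) := by
            refine mul_le_mul' le_rfl (le_trans (le_of_eq ?_) h3)
            congr!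
        _ = ENNReal.ofReal (1 - 1 / (2 * Q)) := by
            rw [ENNReal.ofReal_mul (by positivity), ENNReal.ofReal_natCast, ← mul_assoc,
              ENNReal.inv_mul_cancel (by exact_mod_cast hn.ne') (ENNReal.natCast_ne_top _),
              one_mul])
  by_contra h0
  have h0' : P (cyl x l) = 0 := by
    rcases eq_or_lt_of_le (zero_le (a := P (cyl x l))) with h | h
    · exact h.symm
    · exact absurd h h0
  have h2 : P (cyl x l)ᶜ = 1 := by
    rw [prob_compl_eq_one_iff (isClosed_cyl x l).measurableSet]; exact h0'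
  rw [h2] at h1
  have h3 : ENNReal.ofReal (1 - 1 / (2 * Q)) < 1 := by
    rw [ENNReal.ofReal_lt_one]
    have : (0 : ℝ) < 1 / (2 * Q) := by positivity
    linarith
  exact absurd h1 (not_le.2 h3)

theorem full_support : HasFullSupportMeasure sh := by
  classical
  obtain ⟨D, hDc, hDd⟩ := TopologicalSpace.exists_countable_dense Sp
  have hDne : D.Nonempty := by
    have : (closure D).Nonempty := by rw [hDd.closure_eq]; exact ⟨o, trivial⟩
    exact closure_nonempty_iff.1 this
  obtain ⟨d, hd⟩ := hDc.exists_eq_range hDne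
  have hex : ∀ n : ℕ, ∃ P : Measure Sp, IsProbabilityMeasure P ∧
      MeasurePreserving sh P P ∧ 0 < P (cyl (d n.unpair.1) n.unpair.2) :=
    fun n => exists_measure _ _
  choose P hP1 hP2 hP3 using hex
  refine ⟨Measure.sum fun n => ((2 : ENNReal)⁻¹ ^ (n + 1)) • P n, ?_, ?_, ?_⟩
  · constructor
    rw [Measure.sum_apply _ MeasurableSet.univ]
    simp only [Measure.smul_apply, measure_univ, smul_eq_mul, mul_one]
    exact ENNReal.tsum_geometric_add_one _ |>.trans (by
      rw [ENNReal.one_sub_inv_two, inv_inv]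
      exact ENNReal.inv_mul_cancel (by norm_num) (by norm_num))
  · refine ⟨continuous_sh.measurable, ?_⟩
    ext s hs
    rw [Measure.map_apply continuous_sh.measurable hs,
      Measure.sum_apply _ (continuous_sh.measurable hs), Measure.sum_apply _ hs]
    congr 1
    ext n
    simp only [Measure.smul_apply, smul_eq_mul]
    rw [(hP2 n).measure_preimage hs.nullMeasurableSet]
  · intro U hU hne
    obtain ⟨y, hy, hyD⟩ := hDd.inter_open_nonempty U hU hne
    rw [hd] at hyD
    obtain ⟨k, rfl⟩ := hyD
    obtain ⟨ε, hε, hball⟩ := Metric.isOpen_iff.1 hU (d k) hy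
    obtain ⟨l, hl⟩ : ∃ l : ℕ, (1 / 2 : ℝ) ^ l < ε := exists_pow_lt_of_lt_one hε (by norm_num)
    have hsub : cyl (d k) l ⊆ U := by
      intro y hy
      apply hball
      rw [Metric.mem_ball]
      exact lt_of_le_of_lt (dist_le_of_agree hy) hl
    have h1 := hP3 (Nat.pair k l)
    rw [Nat.unpair_pair] at h1
    simp only at h1
    refine lt_of_lt_of_le ?_ (measure_mono hsub)
    refine lt_of_lt_of_le ?_ (Measure.le_sum (fun n => ((2 : ENNReal)⁻¹ ^ (n + 1)) • P n)
      (Nat.pair k l) (cyl (d k) l))
    rw [Measure.smul_apply, smul_eq_mul]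
    refine ENNReal.mul_pos ?_ h1.ne'
    exact pow_ne_zero _ (ENNReal.inv_ne_zero.2 (by norm_num))

end Pool.Agent.V8H62.ASP
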