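import Pool.Agent.V8H62.ASP.Shadow

/-!
# Correction with increasing levels
-/

set_option autoImplicit false

namespace Pool.Agent.V8H62.ASP

open Filter Topology Finset

/-- density zero -/
def DZ (S : Set ℕ) : Prop := ∀ ε : ℝ, 0 < ε → ∃ n0 : ℕ, ∀ n ≥ n0, (cnt S n : ℝ) ≤ ε * n

lemma DZ.union {S T : Set ℕ} (hS : DZ S) (hT : DZ T) : DZ (S ∪ T) := by
  intro ε hε
  obtain ⟨n1, h1⟩ := hS (ε / 2) (by positivity)
  obtain ⟨n2, h2⟩ := hT (ε / 2) (by positivity)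
  refine ⟨max n1 n2, fun n hn => ?_⟩
  have a1 := h1 n (le_trans (le_max_left _ _) hn)
  have a2 := h2 n (le_trans (le_max_right _ _) hn)
  have a3 : (cnt (S ∪ T) n : ℝ) ≤ cnt S n + cnt T n := by exact_mod_cast cnt_union S T n
  linarith

lemma DZ.mono {S T : Set ℕ} (hT : DZ T) (h : S ⊆ T) : DZ S := by
  intro ε hε
  obtain ⟨n1, h1⟩ := hT ε hε
  refine ⟨n1, fun n hn => le_trans ?_ (h1 n hn)⟩
  exact_mod_cast cnt_mono h n

lemma DZ.nbhd {S : Set ℕ} (hS : DZ S) (L : ℕ) : DZ (nbhd S L) := by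
  intro ε hε
  obtain ⟨n1, h1⟩ := hS (ε / (2 * (2 * L + 1))) (by positivity)
  refine ⟨max n1 L, fun n hn => ?_⟩
  have hnL : L ≤ n := le_trans (le_max_right _ _) hn
  have hn1 : n1 ≤ n := le_trans (le_max_left _ _) hn
  have a1 := h1 (n + L) (by omega)
  have a3 : (cnt (ASP.nbhd S L) n : ℝ) ≤ (2 * L + 1) * cnt S (n + L) := by
    exact_mod_cast cnt_nbhd S L n
  have a4 : ((n + L : ℕ) : ℝ) ≤ 2 * n := by
    have : n + L ≤ 2 * n := by omega
    exact_mod_cast this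
  calc (cnt (ASP.nbhd S L) n : ℝ) ≤ (2 * L + 1) * cnt S (n + L) := a3
    _ ≤ (2 * L + 1) * (ε / (2 * (2 * L + 1)) * ((n + L : ℕ) : ℝ)) := by gcongr
    _ ≤ (2 * L + 1) * (ε / (2 * (2 * L + 1)) * (2 * n)) := by gcongr
    _ = ε * n := by field_simp

/-- order of the breakpoints that matter at level `L` -/
def mm (L : ℕ) : ℕ := 16 ^ L + L + L

lemma mm_mono {L L' : ℕ} (h : L ≤ L') : mm L ≤ mm L' := by
  unfold mm
  have : 16 ^ L ≤ 16 ^ L' := Nat.pow_le_pow_right (by norm_num) h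
  omega

variable (x : ℕ → ℕ → Bool) (N : ℕ → ℕ)

/-- level of a position -/
def lev (i : ℕ) : ℕ := Nat.findGreatest (fun L => N L ≤ i) i

def Z1 : Set ℕ := {t | ∃ i ∈ Bad x (mm (lev N i)), t ≤ i + lev N i ∧ i ≤ t + lev N i}

def Z3 : Set ℕ := {t | ∃ j, 1 ≤ j ∧ t ≤ N j + j ∧ N j ≤ t + j}

/-- the correction set -/
def ZZ : Set ℕ := Z1 x N ∪ (sched N ∪ Z3 N)

variable {x N}

lemma adm_lev (hx : ∀ i, Adm (x i)) (hN : ∀ j, 2 * j ≤ N j) :
    Adm (cut (fun i => x i 0) (ZZ x N)) := by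
  apply adm_cut hx
  intro j hj a b ha hb hab hab2
  have h16 : 0 < 16 ^ j := by positivity
  rcases Nat.lt_or_ge b (N j) with hC | hC
  · -- scheduled run
    left
    obtain ⟨q, hq1, hq2, hq3⟩ := exists_mult (16 ^ j) a (by positivity)
    exact ⟨q, hq2, by omega, fun i hi1 hi2 =>
      Or.inr (Or.inl ⟨j, hj, q, hq1, by omega, by omega, hi1, hi2⟩)⟩
  · rcases Nat.lt_or_ge a (N j) with hB | hA
    · left
      have ha' : ¬ (N j ≤ a + j) := fun h => ha (Or.inr (Or.inr ⟨j, hj, by omega, h⟩))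
      refine ⟨N j - j, by omega, by omega, fun i hi1 hi2 => Or.inr (Or.inr ⟨j, hj, by omega, by omega⟩)⟩
    · by_cases hbad : ∃ s, a ≤ s ∧ s < b ∧ s ∈ Bad x (16 ^ j + j + j)
      · left
        obtain ⟨s, hs1, hs2, hs3⟩ := hbad
        have hlev : j ≤ lev N s := by
          unfold lev
          apply Nat.le_findGreatest
          · have := hN j; omega
          · omega
        have hs4 : s ∈ Bad x (mm (lev N s)) := Bad_mono (mm_mono hlev) hs3
        have ha' : ¬ (s ≤ a + lev N s) := fun h => ha (Or.inl ⟨s, hs4, by omega, h⟩)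
        have hb' : ¬ (b ≤ s + lev N s) := fun h => hb (Or.inl ⟨s, hs4, h, by omega⟩)
        exact ⟨s - lev N s, by omega, by omega,
          fun i hi1 hi2 => Or.inl ⟨s, hs4, by omega, by omega⟩⟩
      · right
        push Not at hbad
        exact fun s h1 h2 => hbad s h1 h2

lemma lev_spec {n : ℕ} (h : N 0 ≤ n) : N (lev N n) ≤ n := by
  unfold lev
  exact Nat.findGreatest_spec (P := fun L => N L ≤ n) (Nat.zero_le n) h

lemma lev_spec' {n : ℕ} (h : lev N n ≠ 0) : N (lev N n) ≤ n :=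
  Nat.findGreatest_of_ne_zero (P := fun L => N L ≤ n) rfl h

lemma two_lev_le (hN : ∀ j, 2 * j ≤ N j) (n : ℕ) : 2 * lev N n ≤ n := by
  by_cases h : lev N n = 0
  · rw [h]; simp
  · exact (hN _).trans (lev_spec' h)

lemma lev_mono (hN : ∀ j, 2 * j ≤ N j) {n n' : ℕ} (h : n ≤ n') : lev N n ≤ lev N n' := by
  by_cases h0 : lev N n = 0
  · rw [h0]; simp
  · have h1 := lev_spec' h0
    have h2 := two_lev_le hN n
    conv_rhs => unfold lev
    apply Nat.le_findGreatest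
    · omega
    · exact h1.trans h

lemma le_lev (hN : ∀ j, 2 * j ≤ N j) {L n : ℕ} (h : N L ≤ n) : L ≤ lev N n := by
  unfold lev
  apply Nat.le_findGreatest
  · have := hN L; omega
  · exact h

lemma dz_Z1 (hN : ∀ j, 2 * j ≤ N j)
    (hP : ∀ L n, N L ≤ n → (L + 1) ^ 3 * cnt (Bad x (mm L)) n ≤ n) : DZ (Z1 x N) := by
  intro ε hε
  obtain ⟨L0, hL0⟩ := exists_nat_gt (4 / ε)
  refine ⟨max (N 0) (N L0), fun n hn => ?_⟩
  have hn0 : N 0 ≤ n := le_trans (le_max_left _ _) hn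
  have hnL0 : N L0 ≤ n := le_trans (le_max_right _ _) hn
  set L := lev N (2 * n) with hL
  have hL1 : L0 ≤ L := le_lev hN (by omega)
  have hL2 : N L ≤ 2 * n := lev_spec (by omega)
  have hL3 : L ≤ n := by have := hN L; omega
  have h1 : cnt (Z1 x N) n ≤ cnt (nbhd (Bad x (mm L)) L) n := by
    classical
    unfold cnt
    apply card_le_card
    intro t ht
    rw [mem_filter, mem_range] at ht ⊢
    refine ⟨ht.1, ?_⟩
    obtain ⟨ht1, i, hi, h2, h3⟩ := ht
    have h4 := two_lev_le hN i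
    have h5 : i ≤ 2 * n := by omega
    have h6 := lev_mono hN h5
    exact ⟨i, Bad_mono (mm_mono h6) hi, by omega, by omega⟩
  have h2 := cnt_nbhd (Bad x (mm L)) L n
  have h3 : cnt (Bad x (mm L)) (n + L) ≤ cnt (Bad x (mm L)) (2 * n) := cnt_mono_right (by omega)
  have h4 := hP L (2 * n) hL2
  have h5 : (cnt (Z1 x N) n : ℝ) ≤ (2 * L + 1) * cnt (Bad x (mm L)) (2 * n) := by
    have : cnt (Z1 x N) n ≤ (2 * L + 1) * cnt (Bad x (mm L)) (2 * n) :=
      h1.trans (h2.trans (Nat.mul_le_mul_left _ h3))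
    exact_mod_cast this
  have h6 : ((L : ℝ) + 1) ^ 3 * cnt (Bad x (mm L)) (2 * n) ≤ 2 * n := by exact_mod_cast h4
  have hLr : (L0 : ℝ) ≤ L := by exact_mod_cast hL1
  have h7 : 4 / ε < L + 1 := by linarith
  have h8 : 4 < ε * (L + 1) := by
    rw [div_lt_iff₀ hε] at h7; linarith
  have hcn : (0 : ℝ) ≤ cnt (Bad x (mm L)) (2 * n) := Nat.cast_nonneg _
  have hLnn : (0 : ℝ) ≤ L := Nat.cast_nonneg _
  -- (2L+1) c ≤ 2 (L+1) c ≤ 4 n / (L+1)^2 ≤ ε n
  have h9 : (2 * (L : ℝ) + 1) * cnt (Bad x (mm L)) (2 * n) * (L + 1) ^ 2 ≤ 4 * n := by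
    calc (2 * (L : ℝ) + 1) * cnt (Bad x (mm L)) (2 * n) * (L + 1) ^ 2
        ≤ (2 * (L + 1)) * cnt (Bad x (mm L)) (2 * n) * (L + 1) ^ 2 := by gcongr; linarith
      _ = 2 * (((L : ℝ) + 1) ^ 3 * cnt (Bad x (mm L)) (2 * n)) := by ring
      _ ≤ 2 * (2 * n) := by linarith
      _ = 4 * n := by ring
  have h10 : (4 : ℝ) * n ≤ ε * n * (L + 1) ^ 2 := by
    have : (4 : ℝ) ≤ ε * (L + 1) ^ 2 := by nlinarith
    nlinarith [(Nat.cast_nonneg n : (0 : ℝ) ≤ n)]
  have h11 : (2 * (L : ℝ) + 1) * cnt (Bad x (mm L)) (2 * n) * (L + 1) ^ 2 ≤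
      ε * n * (L + 1) ^ 2 := h9.trans h10
  have h12 := le_of_mul_le_mul_right h11 (by positivity)
  linarith

lemma dz_Z3 (hN : ∀ j, 2 * j ≤ N j) (hN4 : ∀ j, (j + 1) ^ 4 ≤ N j) : DZ (Z3 N) := by
  intro ε hε
  obtain ⟨L0, hL0⟩ := exists_nat_gt (4 / ε)
  refine ⟨max (N 0) (N L0), fun n hn => ?_⟩
  have hn0 : N 0 ≤ n := le_trans (le_max_left _ _) hn
  have hnL0 : N L0 ≤ n := le_trans (le_max_right _ _) hn
  set L := lev N (2 * n) with hL
  have hL1 : L0 ≤ L := le_lev hN (by omega)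
  have hL2 : N L ≤ 2 * n := lev_spec (by omega)
  have h1 : cnt (Z3 N) n ≤ ∑ j ∈ range (L + 1), (2 * j + 1) := by
    classical
    unfold cnt
    have hsub : (range n).filter (fun i => i ∈ Z3 N) ⊆
        (range (L + 1)).biUnion (fun j => Icc (N j - j) (N j + j)) := by
      intro t ht
      rw [mem_filter, mem_range] at ht
      obtain ⟨ht1, j, hj, h2, h3⟩ := ht
      rw [mem_biUnion]
      refine ⟨j, ?_, ?_⟩
      · rw [mem_range, Nat.lt_succ_iff]
        apply le_lev hN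
        have := hN j; omega
      · rw [mem_Icc]; omega
    refine (card_le_card hsub).trans (card_biUnion_le.trans ?_)
    apply sum_le_sum
    intro j _
    rw [Nat.card_Icc]; omega
  have h2 : ∑ j ∈ range (L + 1), (2 * j + 1) = (L + 1) ^ 2 := by
    clear_value L
    clear hL hL1 hL2 h1
    induction L with
    | zero => simp
    | succ k ih => rw [sum_range_succ, ih]; ring
  rw [h2] at h1
  have h3 : (L + 1) ^ 4 ≤ 2 * n := (hN4 L).trans hL2
  have h3r : ((L : ℝ) + 1) ^ 4 ≤ 2 * n := by exact_mod_cast h3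
  have h1r : (cnt (Z3 N) n : ℝ) ≤ ((L : ℝ) + 1) ^ 2 := by exact_mod_cast h1
  have hLr : (L0 : ℝ) ≤ L := by exact_mod_cast hL1
  have h7 : 4 / ε < L + 1 := by linarith
  have h8 : 4 < ε * (L + 1) := by
    rw [div_lt_iff₀ hε] at h7; linarith
  have hLnn : (0 : ℝ) ≤ L := Nat.cast_nonneg _
  have h9 : ((L : ℝ) + 1) ^ 2 * (L + 1) ^ 2 ≤ ε * n * (L + 1) ^ 2 := by
    have h10 : (4 : ℝ) ≤ ε * (L + 1) ^ 2 := by nlinarith
    have hnn : (0 : ℝ) ≤ n := Nat.cast_nonneg n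
    calc ((L : ℝ) + 1) ^ 2 * ((L : ℝ) + 1) ^ 2 = ((L : ℝ) + 1) ^ 4 := by ring
      _ ≤ 2 * (n : ℝ) := h3r
      _ ≤ 4 * (n : ℝ) := by linarith
      _ ≤ (ε * ((L : ℝ) + 1) ^ 2) * n := by nlinarith
      _ = _ := by ring
  have h12 := le_of_mul_le_mul_right h9 (by positivity)
  linarith

lemma dz_sched : DZ (sched N) := by
  intro ε hε
  -- choose `J` with `2 (1/8)^J ≤ ε/2`
  obtain ⟨J, hJ⟩ : ∃ J : ℕ, (1 / 8 : ℝ) ^ J < ε / 4 :=
    exists_pow_lt_of_lt_one (by positivity) (by norm_num)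
  set C : ℝ := ∑ j ∈ range J, (j : ℝ) * N j with hC
  have hC0 : 0 ≤ C := by
    rw [hC]; exact sum_nonneg fun j _ => by positivity
  obtain ⟨n0, hn0⟩ := exists_nat_gt (2 * C / ε)
  refine ⟨n0, fun n hn => ?_⟩
  have h1 := cnt_sched N n
  have h2 : ∑ j ∈ Ico 1 n, (j : ℝ) * (min (n : ℝ) (N j)) / 16 ^ j ≤
      C + n * ∑ j ∈ Ico J n, (1 / 8 : ℝ) ^ j := by
    have h3 : ∀ j ∈ Ico 1 n, (j : ℝ) * (min (n : ℝ) (N j)) / 16 ^ j ≤
        (if j < J then (j : ℝ) * N j else 0) + (if J ≤ j then (n : ℝ) * (1 / 8) ^ j else 0) := by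
      intro j _
      by_cases hj : j < J
      · simp only [hj, if_true, show ¬ J ≤ j by omega, if_false, add_zero]
        rw [div_le_iff₀ (by positivity)]
        have h16 : (1 : ℝ) ≤ 16 ^ j := one_le_pow₀ (by norm_num)
        calc (j : ℝ) * (min (n : ℝ) (N j)) ≤ j * N j := by gcongr; exact min_le_right _ _
          _ ≤ j * N j * 16 ^ j := by
            apply le_mul_of_one_le_right (by positivity) h16
      · simp only [hj, if_false, show J ≤ j by omega, if_true, zero_add]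
        have := j_div j
        calc (j : ℝ) * (min (n : ℝ) (N j)) / 16 ^ j = (min (n : ℝ) (N j)) * (j / 16 ^ j) := by ring
          _ ≤ n * (1 / 8) ^ j := by
            apply mul_le_mul (min_le_left _ _) this (by positivity) (by positivity)
    refine (sum_le_sum h3).trans ?_
    rw [sum_add_distrib, ← sum_filter, ← sum_filter]
    apply add_le_add
    · rw [hC]
      apply sum_le_sum_of_subset_of_nonneg
      · intro j hj
        rw [mem_filter] at hj
        rw [mem_range]; exact hj.2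
      · intro j _ _; positivity
    · rw [mul_sum]
      apply sum_le_sum_of_subset_of_nonneg
      · intro j hj
        rw [mem_filter, mem_Ico] at hj
        rw [mem_Ico]; omega
      · intro j _ _; positivity
  have h4 := tail_sum J n
  have hnn : (0 : ℝ) ≤ n := Nat.cast_nonneg n
  have hnr : (n0 : ℝ) ≤ n := by exact_mod_cast hn
  have h5 : 2 * C / ε < n := by linarith
  have h6 : 2 * C < n * ε := by rwa [div_lt_iff₀ hε] at h5
  calc (cnt (sched N) n : ℝ) ≤ _ := h1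
    _ ≤ _ := h2
    _ ≤ C + n * (2 * (1 / 8) ^ J) := by gcongr
    _ ≤ C + n * (ε / 2) := by gcongr; linarith
    _ ≤ ε * n := by linarith

lemma dz_ZZ (hN : ∀ j, 2 * j ≤ N j) (hN4 : ∀ j, (j + 1) ^ 4 ≤ N j)
    (hP : ∀ L n, N L ≤ n → (L + 1) ^ 3 * cnt (Bad x (mm L)) n ≤ n) : DZ (ZZ x N) :=
  (dz_Z1 hN hP).union (dz_sched.union (dz_Z3 hN hN4))

/-- existence of the levels -/
lemma exists_N (hbad : ∀ m, DZ (Bad x m)) : ∃ N : ℕ → ℕ, (∀ j, 2 * j ≤ N j) ∧
    (∀ j, (j + 1) ^ 4 ≤ N j) ∧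
    (∀ L n, N L ≤ n → (L + 1) ^ 3 * cnt (Bad x (mm L)) n ≤ n) := by
  have h : ∀ L : ℕ, ∃ n0 : ℕ, ∀ n ≥ n0, (cnt (Bad x (mm L)) n : ℝ) ≤ 1 / ((L : ℝ) + 1) ^ 3 * n :=
    fun L => hbad (mm L) _ (by positivity)
  choose n0 hn0 using h
  refine ⟨fun L => max (n0 L) (max (2 * L) ((L + 1) ^ 4)), fun j => ?_, fun j => ?_,
    fun L n hn => ?_⟩
  · exact le_trans (le_max_left _ _) (le_max_right _ _)
  · exact le_trans (le_max_right _ _) (le_max_right _ _)
  · have h1 := hn0 L n (le_trans (le_max_left _ _) hn)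
    rw [one_div, ← div_eq_inv_mul, le_div_iff₀ (by positivity)] at h1
    have h2 : (cnt (Bad x (mm L)) n * (L + 1) ^ 3 : ℕ) ≤ n := by exact_mod_cast h1
    rw [mul_comm]; exact h2

/-- the positions where the orbit of the corrected point is not close to the pseudo-orbit -/
lemma mismatch_subset (Z : Set ℕ) (l : ℕ) :
    {i | ∃ t < l, cut (fun i => x i 0) Z (i + t) ≠ x i t} ⊆ nbhd Z l ∪ nbhd (Bad x l) l := by
  rintro i ⟨t, ht, hne⟩
  by_cases h1 : i + t ∈ Z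
  · left; exact ⟨i + t, h1, by omega, by omega⟩
  · right
    rw [cut_eq h1] at hne
    by_contra hcon
    apply hne
    have := agree (x := x) (m := l) t i (by omega) (fun s hs hbad =>
      hcon ⟨i + s, hbad, by omega, by omega⟩)
    rw [this]

end Pool.Agent.V8H62.ASP
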