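import Pool.Agent.V8H62.ASP.Core

/-!
# Correcting a concatenation of admissible words
-/

set_option autoImplicit false

namespace Pool.Agent.V8H62.ASP

open Filter Topology Finset

/-- General criterion for the corrected sequence to be admissible. -/
lemma adm_cut {x : ℕ → ℕ → Bool} (hx : ∀ i, Adm (x i)) (Z : Set ℕ)
    (h : ∀ j : ℕ, 1 ≤ j → ∀ a b : ℕ, a ∉ Z → b ∉ Z → a + (16 ^ j + j) ≤ b →
      b ≤ a + (16 ^ j + j) + j →
      (∃ p : ℕ, a < p ∧ p + j ≤ b ∧ ∀ i, p ≤ i → i < p + j → i ∈ Z) ∨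
      (∀ s, a ≤ s → s < b → s ∉ Bad x (16 ^ j + j + j))) :
    Adm (cut (fun i => x i 0) Z) := by
  apply adm_of_short
  intro j hj a b ha hb hab hab2
  have h16 : 0 < 16 ^ j := by positivity
  rw [cut_true] at ha hb
  rcases h j hj a b ha.1 hb.1 hab hab2 with ⟨p, hp1, hp2, hp3⟩ | hgood
  · exact ⟨p, hp1, hp2, fun i hi1 hi2 => cut_false_of_mem (hp3 i hi1 hi2)⟩
  · -- `x a` agrees with `y` on `[a, b]`
    have hag : ∀ l, l ≤ b - a → x a l = x (a + l) 0 := by
      intro l hl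
      apply agree (m := 16 ^ j + j + j) l a (by omega)
      intro s hs
      exact hgood (a + s) (by omega) (by omega)
    obtain ⟨p, hp1, hp2, hp3⟩ := hx a j hj 0 (b - a) (by
      rw [hag 0 (by omega)]; simpa using ha.2) (by
      rw [hag (b - a) le_rfl, show a + (b - a) = b by omega]; exact hb.2) (by omega)
    refine ⟨a + p, by omega, by omega, fun i hi1 hi2 => ?_⟩
    apply cut_false_of_false
    have h1 := hp3 (i - a) (by omega) (by omega)
    rw [hag (i - a) (by omega), show a + (i - a) = i by omega] at h1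
    exact h1

/-- the scheduled runs of order larger than `L` -/
def schedInf (L : ℕ) : Set ℕ :=
  {t | ∃ j, L < j ∧ ∃ q, 16 ^ j ∣ q ∧ 1 ≤ q ∧ q ≤ t ∧ t < q + j}

lemma cnt_schedInf (L n : ℕ) : (cnt (schedInf L) n : ℝ) ≤ 2 * (1 / 8) ^ (L + 1) * n := by
  classical
  have h1 : cnt (schedInf L) n ≤ cnt (sched (fun j => if j ≤ L then 0 else n)) n := by
    unfold cnt
    apply card_le_card
    intro t ht
    rw [mem_filter, mem_range] at ht ⊢
    refine ⟨ht.1, ?_⟩
    obtain ⟨ht1, j, hj, q, hq, hq1, hqt, htq⟩ := ht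
    refine ⟨j, by omega, q, hq, hq1, ?_, hqt, htq⟩
    simp only [show ¬ j ≤ L by omega, if_false]
    omega
  have h2 := cnt_sched (fun j => if j ≤ L then 0 else n) n
  have h3 : ∑ j ∈ Ico 1 n, (j : ℝ) * (min (n : ℝ) ((if j ≤ L then 0 else n : ℕ) : ℝ)) / 16 ^ j ≤
      ∑ j ∈ Ico (L + 1) n, (n : ℝ) * (1 / 8) ^ j := by
    have h4 : ∀ j ∈ Ico 1 n, (j : ℝ) * (min (n : ℝ) ((if j ≤ L then 0 else n : ℕ) : ℝ)) / 16 ^ j ≤
        if L + 1 ≤ j then (n : ℝ) * (1 / 8) ^ j else 0 := by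
      intro j _
      by_cases hj : j ≤ L
      · simp [hj, show ¬ L + 1 ≤ j by omega]
      · simp only [hj, if_false, min_self, show L + 1 ≤ j by omega, if_true]
        have := j_div j
        have hn : (0 : ℝ) ≤ n := Nat.cast_nonneg n
        calc (j : ℝ) * n / 16 ^ j = n * (j / 16 ^ j) := by ring
          _ ≤ _ := mul_le_mul_of_nonneg_left this hn
    refine (sum_le_sum h4).trans ?_
    rw [← sum_filter]
    apply sum_le_sum_of_subset_of_nonneg
    · intro j hj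
      rw [mem_filter, mem_Ico] at hj
      rw [mem_Ico]
      omega
    · intro j _ _; positivity
  calc (cnt (schedInf L) n : ℝ) ≤ (cnt (sched (fun j => if j ≤ L then 0 else n)) n : ℝ) := by
        exact_mod_cast h1
    _ ≤ _ := h2
    _ ≤ _ := h3
    _ = n * ∑ j ∈ Ico (L + 1) n, (1 / 8 : ℝ) ^ j := by rw [mul_sum]
    _ ≤ n * (2 * (1 / 8) ^ (L + 1)) :=
        mul_le_mul_of_nonneg_left (tail_sum _ _) (Nat.cast_nonneg n)
    _ = _ := by ring

/-- the correction set with one fixed level `L` -/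
def fixZ (x : ℕ → ℕ → Bool) (L : ℕ) : Set ℕ :=
  nbhd (Bad x (16 ^ L + L + L)) L ∪ schedInf L

lemma adm_fix {x : ℕ → ℕ → Bool} (hx : ∀ i, Adm (x i)) (L : ℕ) :
    Adm (cut (fun i => x i 0) (fixZ x L)) := by
  apply adm_cut hx
  intro j hj a b ha hb hab hab2
  by_cases hjL : j ≤ L
  · by_cases hbad : ∃ s, a ≤ s ∧ s < b ∧ s ∈ Bad x (16 ^ j + j + j)
    · left
      obtain ⟨s, hs1, hs2, hs3⟩ := hbad
      have hs4 : s ∈ Bad x (16 ^ L + L + L) := by
        refine Bad_mono ?_ hs3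
        have : 16 ^ j ≤ 16 ^ L := Nat.pow_le_pow_right (by norm_num) hjL
        omega
      have ha' : ¬ (s ≤ a + L) := fun h => ha (Or.inl ⟨s, hs4, by omega, h⟩)
      have hb' : ¬ (b ≤ s + L) := fun h => hb (Or.inl ⟨s, hs4, h, by omega⟩)
      exact ⟨s - L, by omega, by omega, fun i hi1 hi2 => Or.inl ⟨s, hs4, by omega, by omega⟩⟩
    · right
      push Not at hbad
      exact fun s h1 h2 => hbad s h1 h2
  · left
    obtain ⟨q, hq1, hq2, hq3⟩ := exists_mult (16 ^ j) a (by positivity)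
    exact ⟨q, hq2, by omega, fun i hi1 hi2 => Or.inr ⟨j, by omega, q, hq1, by omega, hi1, hi2⟩⟩

end Pool.Agent.V8H62.ASP
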