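import Pool.Agent.V8H62.ASP.Defs
import Pool.Agent.V8H62.ASP.Level
import Pool.Agent.W765.KB

/-!
# The subshift of admissible sequences
-/

set_option autoImplicit false

namespace Pool.Agent.V8H62.ASP

open Filter Topology Finset MeasureTheory

attribute [local instance] PiNat.metricSpace

/-- the space of admissible sequences -/
def Sp : Type := {x : ℕ → Bool // Adm x}

noncomputable instance : MetricSpace Sp := inferInstanceAs (MetricSpace {x : ℕ → Bool // Adm x})

lemma continuous_val : Continuous (fun x : Sp => x.1) := continuous_subtype_val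

lemma isClosed_adm : IsClosed {x : ℕ → Bool | Adm x} := by
  have : {x : ℕ → Bool | Adm x} = ⋂ (j : ℕ) (_ : 1 ≤ j) (a : ℕ) (b : ℕ)
      (_ : a + (16 ^ j + j) ≤ b),
      {x | ¬ (x a = true ∧ x b = true) ∨
        ∃ p ∈ Finset.range b, a < p ∧ p + j ≤ b ∧ ∀ i ∈ Finset.Ico p (p + j), x i = false} := by
    ext x
    simp only [Set.mem_iInter, Set.mem_ofPred_eq]
    constructor
    · intro h j hj a b hab
      by_cases h2 : x a = true ∧ x b = true
      · right
        obtain ⟨p, h3, h4, h5⟩ := h j hj a b h2.1 h2.2 hab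
        exact ⟨p, by rw [Finset.mem_range]; omega, h3, h4, fun i hi => by
          rw [Finset.mem_Ico] at hi; exact h5 i hi.1 hi.2⟩
      · left; exact h2
    · intro h j hj a b ha hb hab
      rcases h j hj a b hab with h2 | ⟨p, _, h3, h4, h5⟩
      · exact absurd ⟨ha, hb⟩ h2
      · exact ⟨p, h3, h4, fun i hi1 hi2 => h5 i (by rw [Finset.mem_Ico]; omega)⟩
  rw [this]
  refine isClosed_iInter fun j => isClosed_iInter fun _ => isClosed_iInter fun a =>
    isClosed_iInter fun b => isClosed_iInter fun _ => ?_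
  have hval : ∀ (i : ℕ) (v : Bool), IsClosed {x : ℕ → Bool | x i = v} := fun i v =>
    isClosed_eq (continuous_apply i) continuous_const
  have hvalo : ∀ (i : ℕ) (v : Bool), IsOpen {x : ℕ → Bool | x i = v} := fun i v => by
    have h : Continuous fun x : ℕ → Bool => x i := continuous_apply i
    exact (isOpen_discrete ({v} : Set Bool)).preimage h
  show IsClosed ({x : ℕ → Bool | ¬ (x a = true ∧ x b = true)} ∪
    {x : ℕ → Bool | ∃ p ∈ Finset.range b, a < p ∧ p + j ≤ b ∧
        ∀ i ∈ Finset.Ico p (p + j), x i = false})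
  apply IsClosed.union
  · rw [← isOpen_compl_iff]
    have : {x : ℕ → Bool | ¬ (x a = true ∧ x b = true)}ᶜ =
        {x : ℕ → Bool | x a = true} ∩ {x : ℕ → Bool | x b = true} := by
      ext x; simp
    rw [this]
    exact (hvalo a true).inter (hvalo b true)
  · have : {x : ℕ → Bool | ∃ p ∈ Finset.range b, a < p ∧ p + j ≤ b ∧
        ∀ i ∈ Finset.Ico p (p + j), x i = false} =
        ⋃ p ∈ Finset.range b, ({x | a < p ∧ p + j ≤ b} ∩
          ⋂ i ∈ Finset.Ico p (p + j), {x : ℕ → Bool | x i = false}) := by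
      ext x
      simp only [Set.mem_ofPred_eq, Set.mem_iUnion, Set.mem_inter_iff, Set.mem_iInter,
        exists_prop, and_assoc]
    rw [this]
    apply isClosed_biUnion_finset
    intro p _
    refine IsClosed.inter isClosed_const ?_
    exact isClosed_biInter fun i _ => hval i false

instance : CompactSpace Sp := by
  have : CompactSpace {x : ℕ → Bool // Adm x} :=
    isCompact_iff_compactSpace.1 isClosed_adm.isCompact
  exact this

/-- the shift -/
def sh (x : Sp) : Sp := ⟨fun n => x.1 (n + 1), x.2.shift⟩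

lemma continuous_sh : Continuous sh := by
  apply Continuous.subtype_mk
  exact continuous_pi fun n => (continuous_apply (n + 1)).comp continuous_val

lemma sh_iter (i : ℕ) (x : Sp) (t : ℕ) : (sh^[i] x).1 t = x.1 (i + t) := by
  induction i generalizing t with
  | zero => simp
  | succ i ih =>
    rw [Function.iterate_succ_apply']
    show (sh^[i] x).1 (t + 1) = _
    rw [ih, show i + (t + 1) = i + 1 + t by ring]

lemma dist_eq (x y : Sp) : dist x y = dist x.1 y.1 := rfl

lemma dist_le_of_agree {x y : Sp} {l : ℕ} (h : ∀ t < l, x.1 t = y.1 t) :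
    dist x y ≤ (1 / 2 : ℝ) ^ l := by
  rw [dist_eq, ← PiNat.mem_cylinder_iff_dist_le]
  rw [PiNat.mem_cylinder_iff]
  exact h

lemma dist_le_one' (x y : Sp) : dist x y ≤ 1 := by
  have := dist_le_of_agree (x := x) (y := y) (l := 0) (by simp)
  simpa using this

lemma le_dist_of_ne {x y : Sp} {t : ℕ} (h : x.1 t ≠ y.1 t) : (1 / 2 : ℝ) ^ t ≤ dist x y := by
  by_contra hlt
  push Not at hlt
  exact h (PiNat.apply_eq_of_dist_lt hlt le_rfl)

/-- sum of distances in terms of mismatches -/
lemma sum_dist_le (z : Sp) (x : ℕ → Sp) (l n : ℕ) :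
    ∑ i ∈ range n, dist (sh^[i] z) (x i) ≤
      n * (1 / 2 : ℝ) ^ l + cnt {i | ∃ t < l, z.1 (i + t) ≠ (x i).1 t} n := by
  classical
  have h : ∀ i ∈ range n, dist (sh^[i] z) (x i) ≤ (1 / 2 : ℝ) ^ l +
      (if i ∈ {i | ∃ t < l, z.1 (i + t) ≠ (x i).1 t} then 1 else 0) := by
    intro i _
    by_cases hi : i ∈ {i | ∃ t < l, z.1 (i + t) ≠ (x i).1 t}
    · rw [if_pos hi]
      have := dist_le_one' (sh^[i] z) (x i)
      have : (0 : ℝ) < (1 / 2) ^ l := by positivity
      linarith
    · rw [if_neg hi, add_zero]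
      apply dist_le_of_agree
      intro t ht
      rw [sh_iter]
      by_contra hne
      exact hi ⟨t, ht, hne⟩
  refine (sum_le_sum h).trans ?_
  rw [sum_add_distrib, sum_const, card_range, nsmul_eq_mul, ← sum_filter, sum_const, nsmul_eq_mul,
    mul_one]
  apply le_of_eq
  congr 1
  unfold cnt
  congr!

lemma bad_count (x : ℕ → Sp) (m n : ℕ) :
    (cnt (Bad (fun i => (x i).1) m) n : ℝ) * (1 / 2) ^ m ≤
      ∑ i ∈ range n, dist (sh (x i)) (x (i + 1)) := by
  classical
  unfold cnt
  rw [← nsmul_eq_mul, ← sum_const, sum_filter]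
  apply sum_le_sum
  intro i _
  split
  · rename_i h
    obtain ⟨t, ht, hne⟩ := h
    refine le_trans ?_ (le_dist_of_ne (t := t) hne)
    exact pow_le_pow_of_le_one (by norm_num) (by norm_num) ht
  · exact dist_nonneg

/-- the corrected point -/
noncomputable def corr (x : ℕ → Sp) (Z : Set ℕ)
    (h : Adm (cut (fun i => (x i).1 0) Z)) : Sp := ⟨cut (fun i => (x i).1 0) Z, h⟩

theorem aasp : AsymptoticAverageShadowing sh := by
  intro x hx
  set X : ℕ → ℕ → Bool := fun i => (x i).1 with hX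
  have hadm : ∀ i, Adm (X i) := fun i => (x i).2
  -- the breakpoints have density zero
  have hbad : ∀ m, DZ (Bad X m) := by
    intro m ε hε
    have h1 := (Metric.tendsto_atTop.1 hx) (ε * (1 / 2) ^ m) (by positivity)
    obtain ⟨n0, hn0⟩ := h1
    refine ⟨max n0 1, fun n hn => ?_⟩
    have hn1 : 1 ≤ n := le_trans (le_max_right _ _) hn
    have hnr : (0 : ℝ) < n := by exact_mod_cast hn1
    have h2 := hn0 n (le_trans (le_max_left _ _) hn)
    rw [Real.dist_eq, sub_zero] at h2
    have h3 := (le_abs_self _).trans h2.le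
    rw [div_le_iff₀ hnr] at h3
    have h4 := bad_count x m n
    have h5 : (cnt (Bad X m) n : ℝ) * (1 / 2) ^ m ≤ (ε * n) * (1 / 2) ^ m := by
      calc _ ≤ _ := h4
        _ ≤ _ := h3
        _ = _ := by ring
    exact le_of_mul_le_mul_right h5 (by positivity)
  obtain ⟨N, hN, hN4, hP⟩ := exists_N hbad
  have hadmZ := adm_lev hadm hN
  have hdz := dz_ZZ hN hN4 hP
  refine ⟨corr x _ hadmZ, ?_⟩
  rw [Metric.tendsto_atTop]
  intro ε hε
  obtain ⟨l, hl⟩ : ∃ l : ℕ, (1 / 2 : ℝ) ^ l < ε / 3 :=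
    exists_pow_lt_of_lt_one (by positivity) (by norm_num)
  have hdz2 : DZ {i | ∃ t < l, cut (fun i => X i 0) (ZZ X N) (i + t) ≠ X i t} :=
    ((hdz.nbhd l).union ((hbad l).nbhd l)).mono (mismatch_subset _ l)
  obtain ⟨n0, hn0⟩ := hdz2 (ε / 3) (by positivity)
  refine ⟨max n0 1, fun n hn => ?_⟩
  have hn1 : 1 ≤ n := le_trans (le_max_right _ _) hn
  have hnr : (0 : ℝ) < n := by exact_mod_cast hn1
  have h2 := hn0 n (le_trans (le_max_left _ _) hn)
  have h3 := sum_dist_le (corr x _ hadmZ) x l n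
  rw [Real.dist_eq, sub_zero, abs_of_nonneg (by positivity), div_lt_iff₀ hnr]
  calc _ ≤ _ := h3
    _ ≤ n * (1 / 2 : ℝ) ^ l + ε / 3 * n := by gcongr; exact h2
    _ < ε * n := by nlinarith

theorem asp : AverageShadowing sh := by
  intro ε hε
  obtain ⟨l, hl⟩ : ∃ l : ℕ, (1 / 2 : ℝ) ^ l < ε / 8 :=
    exists_pow_lt_of_lt_one (by positivity) (by norm_num)
  obtain ⟨L, hL⟩ : ∃ L : ℕ, (1 / 8 : ℝ) ^ L < ε / (64 * (2 * l + 1)) :=
    exists_pow_lt_of_lt_one (by positivity) (by norm_num)
  set m := max (16 ^ L + L + L) l with hm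
  -- constant
  set C : ℝ := (2 * (2 * (l : ℝ) + 1) * ((2 * L + 1) * 2 + 1)) with hC
  have hCpos : 0 < C := by positivity
  refine ⟨ε / 8 * (1 / 2) ^ m / C, by positivity, fun x hx => ?_⟩
  obtain ⟨N, hN⟩ := hx
  set X : ℕ → ℕ → Bool := fun i => (x i).1 with hX
  have hadm : ∀ i, Adm (X i) := fun i => (x i).2
  have hadmZ := adm_fix hadm L
  refine ⟨corr x _ hadmZ, ?_⟩
  -- density of breakpoints
  have hbad : ∀ n ≥ max N 1, (cnt (Bad X m) n : ℝ) ≤ ε / 8 / C * n := by
    intro n hn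
    have hn1 : 1 ≤ n := le_trans (le_max_right _ _) hn
    have hnr : (0 : ℝ) < n := by exact_mod_cast hn1
    have h2 := (hN n (le_trans (le_max_left _ _) hn) 0).le
    rw [div_le_iff₀ hnr] at h2
    simp only [add_zero] at h2
    have h4 := bad_count x m n
    have h5 : (cnt (Bad X m) n : ℝ) * (1 / 2) ^ m ≤ (ε / 8 / C * n) * (1 / 2) ^ m := by
      calc _ ≤ _ := h4
        _ ≤ _ := h2
        _ = _ := by ring
    exact le_of_mul_le_mul_right h5 (by positivity)
  have key : ∀ n ≥ max (max N 1) (l + L), (∑ i ∈ range n, dist (sh^[i] (corr x _ hadmZ)) (x i)) / n ≤ ε / 2 := by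
    intro n hn
    have hn0 : max N 1 ≤ n := le_trans (le_max_left _ _) hn
    have hn1 : 1 ≤ n := le_trans (le_max_right _ _) hn0
    have hnl : l + L ≤ n := le_trans (le_max_right _ _) hn
    have hnr : (0 : ℝ) < n := by exact_mod_cast hn1
    rw [div_le_iff₀ hnr]
    have h3 := sum_dist_le (corr x _ hadmZ) x l n
    have h4 : cnt {i | ∃ t < l, (corr x _ hadmZ).1 (i + t) ≠ (x i).1 t} n ≤
        cnt (nbhd (fixZ X L) l) n + cnt (nbhd (Bad X l) l) n :=
      (cnt_mono (mismatch_subset (x := X) (fixZ X L) l) n).trans (cnt_union _ _ n)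
    have h5 := cnt_nbhd (fixZ X L) l n
    have h6 := cnt_nbhd (Bad X l) l n
    have h7 : cnt (fixZ X L) (n + l) ≤ (2 * L + 1) * cnt (Bad X m) (2 * n) +
        cnt (schedInf L) (2 * n) := by
      calc cnt (fixZ X L) (n + l) ≤ cnt (nbhd (Bad X (16 ^ L + L + L)) L) (n + l) +
            cnt (schedInf L) (n + l) := cnt_union _ _ _
        _ ≤ (2 * L + 1) * cnt (Bad X (16 ^ L + L + L)) (n + l + L) + cnt (schedInf L) (2 * n) :=
            add_le_add (cnt_nbhd _ _ _) (cnt_mono_right (by omega))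
        _ ≤ (2 * L + 1) * cnt (Bad X m) (2 * n) + cnt (schedInf L) (2 * n) := by
            gcongr
            refine (cnt_mono (Bad_mono (le_max_left _ _)) _).trans (cnt_mono_right (by omega))
    have h8 : cnt (Bad X l) (n + l) ≤ cnt (Bad X m) (2 * n) :=
      (cnt_mono (Bad_mono (le_max_right _ _)) _).trans (cnt_mono_right (by omega))
    have h9 := cnt_schedInf L (2 * n)
    have h10 := hbad (2 * n) (by omega)
    push_cast at h9 h10
    have h11 : (cnt {i | ∃ t < l, (corr x _ hadmZ).1 (i + t) ≠ (x i).1 t} n : ℝ) ≤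
        (2 * l + 1) * ((2 * L + 1) * cnt (Bad X m) (2 * n) + cnt (schedInf L) (2 * n)) +
        (2 * l + 1) * cnt (Bad X m) (2 * n) := by
      have : cnt {i | ∃ t < l, (corr x _ hadmZ).1 (i + t) ≠ (x i).1 t} n ≤
        (2 * l + 1) * ((2 * L + 1) * cnt (Bad X m) (2 * n) + cnt (schedInf L) (2 * n)) +
        (2 * l + 1) * cnt (Bad X m) (2 * n) :=
        h4.trans (add_le_add (h5.trans (Nat.mul_le_mul_left _ h7))
          (h6.trans (Nat.mul_le_mul_left _ h8)))
      exact_mod_cast this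
    have hl0 : (0 : ℝ) ≤ l := Nat.cast_nonneg l
    have hL0 : (0 : ℝ) ≤ L := Nat.cast_nonneg L
    have e1 : (2 * (l : ℝ) + 1) * (2 * (1 / 8) ^ (L + 1) * (2 * n)) ≤ ε / 8 * n := by
      have : (2 * (l : ℝ) + 1) * (1 / 8) ^ L ≤ ε / 64 := by
        have h := hL.le
        rw [le_div_iff₀ (by positivity)] at h
        linarith
      rw [pow_succ]
      nlinarith
    have e2 : (2 * (l : ℝ) + 1) * ((2 * L + 1) * (ε / 8 / C * (2 * n))) +
        (2 * l + 1) * (ε / 8 / C * (2 * n)) ≤ ε / 8 * n := by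
      have : (2 * (l : ℝ) + 1) * ((2 * L + 1) * (ε / 8 / C * (2 * n))) +
        (2 * l + 1) * (ε / 8 / C * (2 * n)) =
        (2 * (2 * (l : ℝ) + 1) * ((2 * L + 1) + 1)) * (ε / 8 / C * n) := by ring
      rw [this]
      calc (2 * (2 * (l : ℝ) + 1) * ((2 * L + 1) + 1)) * (ε / 8 / C * n)
          ≤ C * (ε / 8 / C * n) := by
            apply mul_le_mul_of_nonneg_right _ (by positivity)
            rw [hC]
            gcongr
            linarith
        _ = ε / 8 * n := by field_simp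
    calc _ ≤ _ := h3
      _ ≤ n * (1 / 2 : ℝ) ^ l + ((2 * l + 1) * ((2 * L + 1) * cnt (Bad X m) (2 * n) +
            cnt (schedInf L) (2 * n)) + (2 * l + 1) * cnt (Bad X m) (2 * n)) := by
          gcongr
      _ ≤ n * (ε / 8) + ((2 * l + 1) * ((2 * L + 1) * (ε / 8 / C * (2 * n)) +
            2 * (1 / 8) ^ (L + 1) * (2 * n)) + (2 * l + 1) * (ε / 8 / C * (2 * n))) := by
          gcongr
      _ ≤ ε / 2 * n := by nlinarith
  unfold ShadowedInAverage
  refine lt_of_le_of_lt (limsup_le_of_le ?_ (eventually_atTop.2 ⟨_, key⟩)) (by linarith)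
  refine isCoboundedUnder_le_of_le atTop (x := 0) fun n => ?_
  positivity

end Pool.Agent.V8H62.ASP
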